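import Mathlib

/-!
# Equitable `U_q(sl_2)`-action on a `q`-Racah Leonard pair

We prove that every Leonard pair with the `q`-Racah parameter array of the problem carries an
irreducible `U_q(sl_2)`-module structure with the three required identities.
-/

set_option autoImplicit false

namespace Pool.Agent.Results.MP_dc3d2a_al.EquitableAction

universe u v

/-! ### Definitions -/

/-- Names of the generators `X`, `X⁻¹`, `Y`, `Z` of `U_q(sl_2)`. -/
inductive Gen
  | X | Xinv | Y | Z

open Gen in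
/-- The defining relations of the equitable presentation of `U_q(sl_2)`. -/
inductive Rel {K : Type u} [Field K] (q : K) : FreeAlgebra K Gen → FreeAlgebra K Gen → Prop
  | x_xinv : Rel q (FreeAlgebra.ι K X * FreeAlgebra.ι K Xinv) 1
  | xinv_x : Rel q (FreeAlgebra.ι K Xinv * FreeAlgebra.ι K X) 1
  | xy : Rel q (q • (FreeAlgebra.ι K X * FreeAlgebra.ι K Y)
      - q⁻¹ • (FreeAlgebra.ι K Y * FreeAlgebra.ι K X)) ((q - q⁻¹) • 1)
  | yz : Rel q (q • (FreeAlgebra.ι K Y * FreeAlgebra.ι K Z)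
      - q⁻¹ • (FreeAlgebra.ι K Z * FreeAlgebra.ι K Y)) ((q - q⁻¹) • 1)
  | zx : Rel q (q • (FreeAlgebra.ι K Z * FreeAlgebra.ι K X)
      - q⁻¹ • (FreeAlgebra.ι K X * FreeAlgebra.ι K Z)) ((q - q⁻¹) • 1)

/-- The algebra `U_q(sl_2)` in its equitable presentation. -/
abbrev Uq {K : Type u} [Field K] (q : K) : Type u := RingQuot (Rel q)

/-- The image of a generator in `U_q(sl_2)`. -/
noncomputable def gen {K : Type u} [Field K] (q : K) (g : Gen) : Uq q :=
  RingQuot.mkAlgHom K (Rel q) (FreeAlgebra.ι K g)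

/-- Irreducible tridiagonal matrices. -/
def IsIrredTridiagonal {K : Type u} [Field K] {d : ℕ}
    (M : Matrix (Fin (d + 1)) (Fin (d + 1)) K) : Prop :=
  (∀ i j : Fin (d + 1), ((i : ℕ) + 1 < j ∨ (j : ℕ) + 1 < i) → M i j = 0) ∧
  (∀ i j : Fin (d + 1), ((i : ℕ) + 1 = j ∨ (j : ℕ) + 1 = i) → M i j ≠ 0)

/-- Leonard pairs on a vector space with a basis of `d + 1` vectors. -/
def IsLeonardPair {K : Type u} {V : Type v} [Field K] [AddCommGroup V] [Module K V] (d : ℕ)
    (A B : Module.End K V) : Prop :=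
  (∃ e : Module.Basis (Fin (d + 1)) K V,
    (LinearMap.toMatrix e e A).IsDiag ∧ IsIrredTridiagonal (LinearMap.toMatrix e e B)) ∧
  (∃ e : Module.Basis (Fin (d + 1)) K V,
    (LinearMap.toMatrix e e B).IsDiag ∧ IsIrredTridiagonal (LinearMap.toMatrix e e A))

/-- The lower bidiagonal matrix with the given diagonal and with all subdiagonal entries `1`. -/
def lowerBi {K : Type u} [Field K] {d : ℕ} (θ : ℕ → K) : Matrix (Fin (d + 1)) (Fin (d + 1)) K :=
  fun i j => if i = j then θ i else if (i : ℕ) = j + 1 then 1 else 0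

/-- The upper bidiagonal matrix with the given diagonal `θ_0, …, θ_d` and superdiagonal
`φ_1, …, φ_d`. -/
def upperBi {K : Type u} [Field K] {d : ℕ} (θ φ : ℕ → K) :
    Matrix (Fin (d + 1)) (Fin (d + 1)) K :=
  fun i j => if i = j then θ i else if (j : ℕ) = i + 1 then φ j else 0

/-- The pair `A, B` has parameter array `(θ_i, θs_i (0 ≤ i ≤ d); φ_i, ϕ_i (1 ≤ i ≤ d))`. -/
def HasParameterArray {K : Type u} {V : Type v} [Field K] [AddCommGroup V] [Module K V] (d : ℕ)
    (A B : Module.End K V) (θ θs φ ϕ : ℕ → K) : Prop :=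
  (∃ e : Module.Basis (Fin (d + 1)) K V,
    LinearMap.toMatrix e e A = lowerBi θ ∧ LinearMap.toMatrix e e B = upperBi θs φ) ∧
  (∃ e : Module.Basis (Fin (d + 1)) K V,
    LinearMap.toMatrix e e A = lowerBi (fun i => θ (d - i)) ∧
    LinearMap.toMatrix e e B = upperBi θs ϕ)

/-- `λ_i(x) = x q^{2i-d} + x⁻¹ q^{d-2i}` -/
def lam {K : Type u} [Field K] (q : K) (d : ℕ) (x : K) (i : ℕ) : K :=
  x * q ^ (2 * (i : ℤ) - d) + x⁻¹ * q ^ ((d : ℤ) - 2 * i)

/-- `u_i = (q^{-i} - q^i)(q^{d-i+1} - q^{i-d-1})` -/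
def uu {K : Type u} [Field K] (q : K) (d : ℕ) (i : ℕ) : K :=
  (q ^ (-(i : ℤ)) - q ^ (i : ℤ)) * (q ^ ((d : ℤ) - i + 1) - q ^ ((i : ℤ) - d - 1))

/-- `r_i(x) = q^{-i} - x q^{i-d-1}` -/
def rr {K : Type u} [Field K] (q : K) (d : ℕ) (x : K) (i : ℕ) : K :=
  q ^ (-(i : ℤ)) - x * q ^ ((i : ℤ) - d - 1)

/-- `φ_i = q^{d+1}/(ab) u_i r_i(abc) r_i(ab/c)` -/
def phi {K : Type u} [Field K] (a b c q : K) (d : ℕ) (i : ℕ) : K :=
  q ^ (d + 1) / (a * b) * uu q d i * rr q d (a * b * c) i * rr q d (a * b / c) i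

/-- `ϕ_i = a q^{d+1}/b u_i r_i(bc/a) r_i(b/(ac))` -/
def phi' {K : Type u} [Field K] (a b c q : K) (d : ℕ) (i : ℕ) : K :=
  a * q ^ (d + 1) / b * uu q d i * rr q d (b * c / a) i * rr q d (b / (a * c)) i

/-! ### Leonard pairs are irreducible -/

section Irred

variable {K : Type u} {V : Type v} [Field K] [AddCommGroup V] [Module K V] {d : ℕ}

/-- A linear map with a lower bidiagonal matrix with unit subdiagonal has one dimensional
eigenspaces: an eigenvector is determined by its last coordinate. -/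
theorem eigen_last (A : Module.End K V) (e : Module.Basis (Fin (d + 1)) K V) (θ : ℕ → K)
    (hA : LinearMap.toMatrix e e A = lowerBi θ) (t : K) (w : V) (hw : A w = t • w)
    (h0 : e.repr w (Fin.last d) = 0) : w = 0 := by
  have key : ∀ i : Fin (d + 1), θ i * e.repr w i +
      (if h : 0 < (i : ℕ) then e.repr w ⟨i - 1, by omega⟩ else 0) = t * e.repr w i := by
    intro i
    have h1 : e.repr (A w) i = t * e.repr w i := by rw [hw]; simp
    rw [← h1]
    have h2 : e.repr (A w) i = ∑ j, LinearMap.toMatrix e e A i j * e.repr w j := by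
      have := LinearMap.toMatrix_mulVec_repr e e A w
      have h3 := congrFun this i
      rw [← h3]
      rfl
    rw [h2, hA]
    by_cases hi : 0 < (i : ℕ)
    · rw [dif_pos hi]
      have hne : (⟨i - 1, by omega⟩ : Fin (d + 1)) ≠ i := by
        intro h
        have := congrArg Fin.val h
        simp at this
        omega
      rw [Finset.sum_eq_add_of_mem i (⟨i - 1, by omega⟩ : Fin (d + 1)) (Finset.mem_univ _)
        (Finset.mem_univ _) hne.symm]
      · have h5 : (i : ℕ) = ((⟨i - 1, by omega⟩ : Fin (d + 1)) : ℕ) + 1 := by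
          change (i : ℕ) = (i : ℕ) - 1 + 1
          omega
        simp only [lowerBi]
        rw [if_pos trivial, if_neg hne.symm, if_pos (by omega)]
        ring
      · intro j _ hj
        have h3 : i ≠ j := fun h => hj.1 h.symm
        have h4 : ¬ ((i : ℕ) = j + 1) := by
          intro h
          apply hj.2
          ext
          simp
          omega
        simp [lowerBi, h3, h4]
    · rw [dif_neg hi]
      rw [Finset.sum_eq_single i]
      · simp [lowerBi]
      · intro j _ hj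
        have h3 : i ≠ j := fun h => hj h.symm
        have h4 : ¬ ((i : ℕ) = j + 1) := by omega
        simp [lowerBi, h3, h4]
      · simp
  have hall : ∀ k : ℕ, ∀ i : Fin (d + 1), (i : ℕ) + k = d → e.repr w i = 0 := by
    intro k
    induction k with
    | zero =>
      intro i hi
      have : i = Fin.last d := by ext; simp; omega
      rw [this, h0]
    | succ k ih =>
      intro i hi
      have h1 := key ⟨i + 1, by omega⟩
      have h2 := ih ⟨i + 1, by omega⟩ (by simp; omega)
      rw [h2] at h1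
      simpa using h1
  apply e.repr.injective
  ext i
  rw [hall (d - i) i (by omega)]
  simp

theorem irred (A B : Module.End K V) (hL : IsLeonardPair d A B)
    (e : Module.Basis (Fin (d + 1)) K V) (θ : ℕ → K)
    (hA : LinearMap.toMatrix e e A = lowerBi θ)
    (W : Submodule K V) (hWA : ∀ w ∈ W, A w ∈ W) (hWB : ∀ w ∈ W, B w ∈ W) :
    W = ⊥ ∨ W = ⊤ := by
  obtain ⟨⟨f, hf1, hf2⟩, -⟩ := hL
  -- eigenvalues
  set t : Fin (d + 1) → K := fun i => LinearMap.toMatrix f f A i i with ht
  have hAf : ∀ i, A (f i) = t i • f i := by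
    intro i
    apply f.repr.injective
    ext j
    have h1 : f.repr (A (f i)) j = LinearMap.toMatrix f f A j i := by
      rw [LinearMap.toMatrix_apply]
    rw [h1]
    by_cases hij : j = i
    · subst hij; simp [ht]
    · rw [hf1 hij]
      simp [Ne.symm hij]
  -- eigenvalues are distinct
  have hinj : Function.Injective t := by
    intro i j hij
    by_contra hne
    -- combine to kill the last coordinate
    have h1 := eigen_last A e θ hA (t i)
      (e.repr (f j) (Fin.last d) • f i - e.repr (f i) (Fin.last d) • f j)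
      (by
        rw [map_sub, map_smul, map_smul, hAf, hAf, ← hij, smul_sub, smul_comm, smul_comm (t i)
          (e.repr (f i) (Fin.last d))])
      (by simp; ring)
    have h2 := congrArg (fun w => f.repr w i) h1
    have h3 : e.repr (f j) (Fin.last d) = 0 := by
      simpa [Finsupp.single_apply, Ne.symm hne] using h2
    have h4 := eigen_last A e θ hA (t j) (f j) (hAf j) h3
    exact f.ne_zero j h4
  by_cases hW : W = ⊥
  · exact Or.inl hW
  right
  -- a nonzero vector
  obtain ⟨w, hwW, hw0⟩ := (Submodule.ne_bot_iff W).mp hW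
  have hex : ∃ j, f.repr w j ≠ 0 := by
    by_contra hcon
    push Not at hcon
    apply hw0
    apply f.repr.injective
    ext j
    rw [hcon j]
    simp
  -- projection to an eigenline
  have hproj : ∀ (w : V), w ∈ W → ∀ j, f.repr w j ≠ 0 → f j ∈ W := by
    intro w hw j hj
    have hstep : ∀ s : Finset (Fin (d + 1)), j ∉ s →
        ∃ w' ∈ W, f.repr w' j ≠ 0 ∧ ∀ k ∈ s, f.repr w' k = 0 := by
      intro s
      induction s using Finset.induction_on with
      | empty => intro _; exact ⟨w, hw, hj, by simp⟩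
      | insert k s hk ih =>
        intro hjs
        rw [Finset.mem_insert, not_or] at hjs
        obtain ⟨w', hw', h1, h2⟩ := ih hjs.2
        refine ⟨A w' - t k • w', W.sub_mem (hWA _ hw') (W.smul_mem _ hw'), ?_, ?_⟩
        · have h3 : ∀ l, f.repr (A w' - t k • w') l = (t l - t k) * f.repr w' l := by
            intro l
            have h4 : f.repr (A w') l = t l * f.repr w' l := by
              have := LinearMap.toMatrix_mulVec_repr f f A w'
              have h5 := congrFun this l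
              rw [← h5, Matrix.mulVec, dotProduct, Finset.sum_eq_single l]
              · intro b _ hb
                rw [hf1 (Ne.symm hb)]; simp
              · simp
            simp only [map_sub, map_smul, Finsupp.coe_sub, Finsupp.coe_smul, Pi.sub_apply,
              Pi.smul_apply, smul_eq_mul, h4]
            ring
          rw [h3]
          exact mul_ne_zero (sub_ne_zero.mpr (fun h => hjs.1 (hinj h))) h1
        · intro l hl
          have h3 : ∀ l, f.repr (A w' - t k • w') l = (t l - t k) * f.repr w' l := by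
            intro l
            have h4 : f.repr (A w') l = t l * f.repr w' l := by
              have := LinearMap.toMatrix_mulVec_repr f f A w'
              have h5 := congrFun this l
              rw [← h5, Matrix.mulVec, dotProduct, Finset.sum_eq_single l]
              · intro b _ hb
                rw [hf1 (Ne.symm hb)]; simp
              · simp
            simp only [map_sub, map_smul, Finsupp.coe_sub, Finsupp.coe_smul, Pi.sub_apply,
              Pi.smul_apply, smul_eq_mul, h4]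
            ring
          rw [h3]
          rw [Finset.mem_insert] at hl
          rcases hl with rfl | hl
          · simp
          · rw [h2 l hl]; simp
    obtain ⟨w', hw', h1, h2⟩ := hstep (Finset.univ.erase j) (by simp)
    have h3 : w' = f.repr w' j • f j := by
      apply f.repr.injective
      ext k
      by_cases hk : k = j
      · subst hk; simp
      · rw [h2 k (by simp [hk])]
        simp [Ne.symm hk]
    have h4 : f j = (f.repr w' j)⁻¹ • w' := by
      conv_rhs => rw [h3]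
      simp [smul_smul, h1]
    rw [h4]
    exact W.smul_mem _ hw'
  obtain ⟨j, hj⟩ := hex
  have hjW : f j ∈ W := hproj w hwW j hj
  have hnb : ∀ i k : Fin (d + 1), f i ∈ W → ((i : ℕ) + 1 = k ∨ (k : ℕ) + 1 = i) → f k ∈ W := by
    intro i k hi hik
    apply hproj (B (f i)) (hWB _ hi)
    have h1 : f.repr (B (f i)) k = LinearMap.toMatrix f f B k i := by
      rw [LinearMap.toMatrix_apply]
    rw [h1]
    exact hf2.2 k i hik.symm
  have hup : ∀ n : ℕ, ∀ k : Fin (d + 1), (k : ℕ) = j + n → f k ∈ W := by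
    intro n
    induction n with
    | zero => intro k hk; have : k = j := by ext; simpa using hk
              rw [this]; exact hjW
    | succ n ih =>
      intro k hk
      exact hnb ⟨k - 1, by omega⟩ k (ih _ (by simp; omega)) (Or.inl (by simp; omega))
  have hdown : ∀ n : ℕ, ∀ k : Fin (d + 1), (k : ℕ) + n = j → f k ∈ W := by
    intro n
    induction n with
    | zero => intro k hk; have : k = j := by ext; simpa using hk
              rw [this]; exact hjW
    | succ n ih =>
      intro k hk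
      exact hnb ⟨k + 1, by omega⟩ k (ih _ (by simp; omega)) (Or.inr (by simp))
  rw [eq_top_iff, ← f.span_eq, Submodule.span_le]
  rintro _ ⟨k, rfl⟩
  rcases le_total (j : ℕ) k with h | h
  · exact hup (k - j) k (by omega)
  · exact hdown (j - k) k (by omega)

end Irred

/-! ### The construction -/

section Construct

variable {K : Type u} {V : Type v} [Field K] [AddCommGroup V] [Module K V] {d : ℕ}

/-- `q^{d-2n}` -/
def chi (q : K) (d n : ℕ) : K := q ^ d / (q ^ n) ^ 2
/-- `q^{2n-d}` -/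
def zeta (q : K) (d n : ℕ) : K := (q ^ n) ^ 2 / q ^ d

theorem zpow_zeta {q : K} (hq : q ≠ 0) (d n : ℕ) : q ^ (2 * (n : ℤ) - d) = zeta q d n := by
  rw [zeta, zpow_sub₀ hq, zpow_natCast, mul_comm, zpow_mul, zpow_natCast]
  norm_cast

theorem zpow_chi {q : K} (hq : q ≠ 0) (d n : ℕ) : q ^ ((d : ℤ) - 2 * n) = chi q d n := by
  rw [chi, zpow_sub₀ hq, zpow_natCast, mul_comm (2 : ℤ), zpow_mul, zpow_natCast]
  norm_cast

theorem lam_eq {q : K} (hq : q ≠ 0) (d : ℕ) (x : K) (n : ℕ) :
    lam q d x n = x * zeta q d n + x⁻¹ * chi q d n := by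
  rw [lam, zpow_zeta hq, zpow_chi hq]

theorem lam_rev {q : K} (hq : q ≠ 0) (d : ℕ) (x : K) (n : ℕ) (hn : n ≤ d) :
    lam q d x (d - n) = x * chi q d n + x⁻¹ * zeta q d n := by
  rw [lam, ← zpow_zeta hq, ← zpow_chi hq]
  congr 3
  · push_cast [Nat.cast_sub hn]; ring
  · push_cast [Nat.cast_sub hn]; ring

theorem uu_eq {q : K} (hq : q ≠ 0) (d n : ℕ) :
    uu q d n = (1 / q ^ n - q ^ n) * (q ^ d * q / q ^ n - q ^ n / (q ^ d * q)) := by
  have h1 : q ^ (-(n : ℤ)) = 1 / q ^ n := by rw [zpow_neg, zpow_natCast, one_div]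
  have h2 : q ^ ((d : ℤ) - n + 1) = q ^ d * q / q ^ n := by
    have : (d : ℤ) - n + 1 = d + 1 - n := by ring
    rw [this, zpow_sub₀ hq, zpow_add₀ hq, zpow_natCast, zpow_natCast, zpow_one]
  have h3 : q ^ ((n : ℤ) - d - 1) = q ^ n / (q ^ d * q) := by
    have : (n : ℤ) - d - 1 = n - (d + 1) := by ring
    rw [this, zpow_sub₀ hq, zpow_add₀ hq, zpow_natCast, zpow_natCast, zpow_one]
  rw [uu, h1, h2, h3, zpow_natCast]

theorem rr_eq {q : K} (hq : q ≠ 0) (d : ℕ) (x : K) (n : ℕ) :
    rr q d x n = 1 / q ^ n - x * (q ^ n / (q ^ d * q)) := by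
  have h1 : q ^ (-(n : ℤ)) = 1 / q ^ n := by rw [zpow_neg, zpow_natCast, one_div]
  have h3 : q ^ ((n : ℤ) - d - 1) = q ^ n / (q ^ d * q) := by
    have : (n : ℤ) - d - 1 = n - (d + 1) := by ring
    rw [this, zpow_sub₀ hq, zpow_add₀ hq, zpow_natCast, zpow_natCast, zpow_one]
  rw [rr, h1, h3]

/-- The basis vectors, shifted and extended by zero: `sv e (n+1)` is the `n`-th basis vector. -/
noncomputable def sv (e : Module.Basis (Fin (d + 1)) K V) (n : ℕ) : V :=
  if h : 0 < n ∧ n < d + 2 then e ⟨n - 1, by omega⟩ else 0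

theorem sv_zero (e : Module.Basis (Fin (d + 1)) K V) : sv e 0 = 0 := by simp [sv]

theorem sv_top (e : Module.Basis (Fin (d + 1)) K V) : sv e (d + 2) = 0 := by simp [sv]

theorem sv_coe (e : Module.Basis (Fin (d + 1)) K V) (i : Fin (d + 1)) :
    sv e ((i : ℕ) + 1) = e i := by
  have h : 0 < (i : ℕ) + 1 ∧ (i : ℕ) + 1 < d + 2 := ⟨by omega, by omega⟩
  rw [sv, dif_pos h]
  congr 1

theorem apply_lower (e : Module.Basis (Fin (d + 1)) K V) (T : Module.End K V) (θ : ℕ → K)
    (hT : LinearMap.toMatrix e e T = lowerBi θ) (n : ℕ) (hn : n ≤ d) :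
    T (sv e (n + 1)) = θ n • sv e (n + 1) + sv e (n + 2) := by
  have h0 : sv e (n + 1) = e ⟨n, by omega⟩ := sv_coe e ⟨n, by omega⟩
  rw [h0]
  apply e.repr.injective
  ext i
  have h1 : e.repr (T (e ⟨n, by omega⟩)) i = LinearMap.toMatrix e e T i ⟨n, by omega⟩ := by
    rw [LinearMap.toMatrix_apply]
  rw [h1, hT, map_add, map_smul]
  have hi := i.2
  by_cases hnd : n = d
  · have h2 : sv e (n + 2) = 0 := by rw [hnd, sv_top]
    rw [h2]
    simp only [lowerBi, Finsupp.smul_apply, Module.Basis.repr_self,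
      Finsupp.single_apply, Fin.ext_iff, map_zero, add_zero, smul_eq_mul]
    by_cases hin : (i : ℕ) = n
    · rw [if_pos hin, if_pos hin.symm, hin, mul_one]
    · rw [if_neg hin, if_neg (Ne.symm hin), if_neg (by omega), mul_zero]
  · have h2 : sv e (n + 2) = e ⟨n + 1, by omega⟩ := sv_coe e ⟨n + 1, by omega⟩
    rw [h2]
    simp only [lowerBi, Finsupp.add_apply, Finsupp.smul_apply, Module.Basis.repr_self,
      Finsupp.single_apply, Fin.ext_iff, smul_eq_mul]
    by_cases hin : (i : ℕ) = n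
    · rw [if_pos hin, if_pos hin.symm, hin, mul_one, if_neg (by omega), add_zero]
    · rw [if_neg hin, if_neg (Ne.symm hin), mul_zero, zero_add]
      by_cases hin2 : (i : ℕ) = n + 1
      · rw [if_pos hin2, if_pos hin2.symm]
      · rw [if_neg hin2, if_neg (Ne.symm hin2)]

theorem apply_upper (e : Module.Basis (Fin (d + 1)) K V) (T : Module.End K V) (θ φ : ℕ → K)
    (hT : LinearMap.toMatrix e e T = upperBi θ φ) (n : ℕ) (hn : n ≤ d) :
    T (sv e (n + 1)) = φ n • sv e n + θ n • sv e (n + 1) := by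
  have h0 : sv e (n + 1) = e ⟨n, by omega⟩ := sv_coe e ⟨n, by omega⟩
  rw [h0]
  apply e.repr.injective
  ext i
  have h1 : e.repr (T (e ⟨n, by omega⟩)) i = LinearMap.toMatrix e e T i ⟨n, by omega⟩ := by
    rw [LinearMap.toMatrix_apply]
  rw [h1, hT, map_add, map_smul, map_smul]
  have hi := i.2
  rcases n with _ | m
  · rw [sv_zero]
    simp only [upperBi, Finsupp.add_apply, Finsupp.smul_apply, Module.Basis.repr_self,
      Finsupp.single_apply, Fin.ext_iff, map_zero, Finsupp.zero_apply, smul_eq_mul, mul_zero,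
      zero_add]
    by_cases hin : (i : ℕ) = 0
    · rw [if_pos hin, if_pos hin.symm, hin, mul_one]
    · rw [if_neg hin, if_neg (Ne.symm hin), if_neg (by omega), mul_zero]
  · have h2 : sv e (m + 1) = e ⟨m, by omega⟩ := sv_coe e ⟨m, by omega⟩
    rw [h2]
    simp only [upperBi, Finsupp.add_apply, Finsupp.smul_apply, Module.Basis.repr_self,
      Finsupp.single_apply, Fin.ext_iff, smul_eq_mul]
    by_cases hin : (i : ℕ) = m + 1
    · rw [if_pos hin, if_pos hin.symm, hin, mul_one, if_neg (by omega), mul_zero, zero_add]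
    · rw [if_neg hin, if_neg (Ne.symm hin), mul_zero, add_zero]
      by_cases hin2 : (i : ℕ) = m
      · rw [if_pos (by omega), if_pos hin2.symm, mul_one]
      · rw [if_neg (by omega), if_neg (Ne.symm hin2), mul_zero]

theorem comb3 (e : Module.Basis (Fin (d + 1)) K V) (n : ℕ) (hn : n ≤ d) {α α' β β' γ γ' : K}
    (hα : n ≠ 0 → α = α') (hβ : β = β') (hγ : n < d → γ = γ') :
    α • sv e n + β • sv e (n + 1) + γ • sv e (n + 2) =
      α' • sv e n + β' • sv e (n + 1) + γ' • sv e (n + 2) := by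
  have h1 : α • sv e n = α' • sv e n := by
    by_cases h : n = 0
    · rw [h, sv_zero]; simp
    · rw [hα h]
  have h2 : γ • sv e (n + 2) = γ' • sv e (n + 2) := by
    by_cases h : n = d
    · rw [h, sv_top]; simp
    · rw [hγ (by omega)]
  rw [h1, h2, hβ]

/-- The scalar `a⁻¹ - (c/b) q^{d-2n+1}`. -/
def gg (a b c q : K) (d n : ℕ) : K := a⁻¹ - c / b * (q ^ d * q / (q ^ n) ^ 2)
/-- The scalar `b - (a/c) q^{d-2n+1}`. -/
def hh (a b c q : K) (d n : ℕ) : K := b - a / c * (q ^ d * q / (q ^ n) ^ 2)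
/-- subdiagonal entries of `Y` -/
def yy (a b c q : K) (d n : ℕ) : K := (gg a b c q d n)⁻¹
/-- superdiagonal entries of `Z` -/
def zz (a b c q : K) (d n : ℕ) : K := phi' a b c q d n * (hh a b c q d n)⁻¹

theorem phi'_eq {a b c q : K} (ha : a ≠ 0) (hb : b ≠ 0) (hc : c ≠ 0) (hq : q ≠ 0) (d n : ℕ) :
    phi' a b c q d n =
      (1 - (q ^ n) ^ 2) * (1 - (q ^ n) ^ 2 / (q ^ d * q) ^ 2) *
        (gg a b c q d n * hh a b c q d n) := by
  rw [phi', uu_eq hq, rr_eq hq, rr_eq hq, gg, hh]
  have h1 : q ^ n ≠ 0 := pow_ne_zero _ hq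
  have h2 : q ^ d ≠ 0 := pow_ne_zero _ hq
  rw [pow_succ q d]
  generalize q ^ n = Q at *
  generalize q ^ d = D at *
  field_simp
  ring

theorem phi'_zero {a b c q : K} (hq : q ≠ 0) (d : ℕ) : phi' a b c q d 0 = 0 := by
  rw [phi', uu_eq hq]; simp

theorem phi'_top {a b c q : K} (hq : q ≠ 0) (d : ℕ) : phi' a b c q d (d + 1) = 0 := by
  have h2 : q ^ d ≠ 0 := pow_ne_zero _ hq
  rw [phi', uu_eq hq, pow_succ]
  have : q ^ d * q / (q ^ d * q) = 1 := div_self (mul_ne_zero h2 hq)
  rw [this]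
  ring

theorem zz_zero {a b c q : K} (hq : q ≠ 0) (d : ℕ) : zz a b c q d 0 = 0 := by
  rw [zz, phi'_zero hq, zero_mul]

theorem zz_top {a b c q : K} (hq : q ≠ 0) (d : ℕ) : zz a b c q d (d + 1) = 0 := by
  rw [zz, phi'_top hq, zero_mul]

/-- the product of the two off-diagonal entries -/
theorem yz_prod {a b c q : K} (ha : a ≠ 0) (hb : b ≠ 0) (hc : c ≠ 0) (hq : q ≠ 0) (d : ℕ)
    (hphi : ∀ n, 1 ≤ n → n ≤ d → phi' a b c q d n ≠ 0) (n : ℕ) (hn : n ≤ d + 1) :
    yy a b c q d n * zz a b c q d n =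
      (1 - (q ^ n) ^ 2) * (1 - (q ^ n) ^ 2 / (q ^ d * q) ^ 2) := by
  by_cases h0 : n = 0
  · subst h0; rw [zz_zero hq]; simp
  by_cases h1 : n = d + 1
  · subst h1
    have h2 : q ^ d ≠ 0 := pow_ne_zero _ hq
    rw [zz_top hq, pow_succ q d, div_self (pow_ne_zero _ (mul_ne_zero h2 hq))]
    ring
  have h2 := hphi n (by omega) (by omega)
  rw [phi'_eq ha hb hc hq] at h2
  have h3 : gg a b c q d n ≠ 0 := by
    intro h; rw [h] at h2; simp at h2
  have h4 : hh a b c q d n ≠ 0 := by
    intro h; rw [h] at h2; simp at h2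
  rw [yy, zz, phi'_eq ha hb hc hq]
  field_simp

theorem yy_gg {a b c q : K} (ha : a ≠ 0) (hb : b ≠ 0) (hc : c ≠ 0) (hq : q ≠ 0) (d : ℕ)
    (hphi : ∀ n, 1 ≤ n → n ≤ d → phi' a b c q d n ≠ 0) (n : ℕ) (hn1 : 1 ≤ n) (hn : n ≤ d) :
    yy a b c q d n * gg a b c q d n = 1 := by
  have h2 := hphi n (by omega) (by omega)
  rw [phi'_eq ha hb hc hq] at h2
  have h3 : gg a b c q d n ≠ 0 := by
    intro h; rw [h] at h2; simp at h2
  rw [yy, inv_mul_cancel₀ h3]

theorem zz_hh {a b c q : K} (ha : a ≠ 0) (hb : b ≠ 0) (hc : c ≠ 0) (hq : q ≠ 0) (d : ℕ)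
    (hphi : ∀ n, 1 ≤ n → n ≤ d → phi' a b c q d n ≠ 0) (n : ℕ) (hn1 : 1 ≤ n) (hn : n ≤ d) :
    zz a b c q d n * hh a b c q d n = phi' a b c q d n := by
  have h2 := hphi n (by omega) (by omega)
  rw [phi'_eq ha hb hc hq] at h2
  have h4 : hh a b c q d n ≠ 0 := by
    intro h; rw [h] at h2; simp at h2
  rw [zz, mul_assoc, inv_mul_cancel₀ h4, mul_one]

theorem chi_succ (q : K) (d n : ℕ) : chi q d (n + 1) = q ^ d / (q ^ n * q) ^ 2 := by
  rw [chi, pow_succ q n]
theorem zeta_succ (q : K) (d n : ℕ) : zeta q d (n + 1) = (q ^ n * q) ^ 2 / q ^ d := by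
  rw [zeta, pow_succ q n]

theorem sq_sub_one_ne {q : K} (hq2 : q - q⁻¹ ≠ 0) : q ^ 2 - 1 ≠ 0 := by
  intro h
  apply hq2
  have h1 : q * q = 1 := by linear_combination h
  rw [sub_eq_zero]
  exact eq_inv_of_mul_eq_one_left h1

/-- The data of the five operators on the (shifted) basis. -/
structure Data (e : Module.Basis (Fin (d + 1)) K V) (a b c q : K) (X Y Z A B : Module.End K V) :
    Prop where
  hX : ∀ n ≤ d, X (sv e (n + 1)) = chi q d n • sv e (n + 1)
  hY : ∀ n ≤ d, Y (sv e (n + 1)) = zeta q d n • sv e (n + 1) +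
    yy a b c q d (n + 1) • sv e (n + 2)
  hZ : ∀ n ≤ d, Z (sv e (n + 1)) = zz a b c q d n • sv e n + zeta q d n • sv e (n + 1)
  hA : ∀ n ≤ d, A (sv e (n + 1)) = (a * chi q d n + a⁻¹ * zeta q d n) • sv e (n + 1) +
    sv e (n + 2)
  hB : ∀ n ≤ d, B (sv e (n + 1)) = phi' a b c q d n • sv e n +
    (b * zeta q d n + b⁻¹ * chi q d n) • sv e (n + 1)

namespace Data

variable {e : Module.Basis (Fin (d + 1)) K V} {a b c q : K} {X Y Z A B : Module.End K V}

theorem X_up (D : Data e a b c q X Y Z A B) (n : ℕ) (hn : n ≤ d) :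
    X (sv e (n + 2)) = chi q d (n + 1) • sv e (n + 2) := by
  by_cases h : n = d
  · rw [h, sv_top]; simp
  · exact D.hX (n + 1) (by omega)

theorem X_down (D : Data e a b c q X Y Z A B) (hq : q ≠ 0) (n : ℕ) (hn : n ≤ d) :
    X (sv e n) = (q ^ d * q ^ 2 / (q ^ n) ^ 2) • sv e n := by
  rcases n with _ | m
  · rw [sv_zero]; simp
  · rw [D.hX m (by omega)]
    congr 1
    rw [chi, pow_succ q m]
    have h1 : q ^ m ≠ 0 := pow_ne_zero _ hq
    field_simp

theorem Z_up (D : Data e a b c q X Y Z A B) (hq : q ≠ 0) (n : ℕ) (hn : n ≤ d) :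
    Z (sv e (n + 2)) = zz a b c q d (n + 1) • sv e (n + 1) + zeta q d (n + 1) • sv e (n + 2) := by
  by_cases h : n = d
  · rw [h, sv_top, zz_top hq]; simp
  · exact D.hZ (n + 1) (by omega)

theorem B_up (D : Data e a b c q X Y Z A B) (hq : q ≠ 0) (n : ℕ) (hn : n ≤ d) :
    B (sv e (n + 2)) = phi' a b c q d (n + 1) • sv e (n + 1) +
      (b * zeta q d (n + 1) + b⁻¹ * chi q d (n + 1)) • sv e (n + 2) := by
  by_cases h : n = d
  · rw [h, sv_top, phi'_top hq]; simp
  · exact D.hB (n + 1) (by omega)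

theorem Y_down (D : Data e a b c q X Y Z A B) (hq : q ≠ 0) (n : ℕ) (hn : n ≤ d) :
    zz a b c q d n • Y (sv e n) = zz a b c q d n •
      (((q ^ n) ^ 2 / (q ^ d * q ^ 2)) • sv e n + yy a b c q d n • sv e (n + 1)) := by
  rcases n with _ | m
  · rw [zz_zero hq]; simp
  · rw [D.hY m (by omega)]
    have h1 : q ^ m ≠ 0 := pow_ne_zero _ hq
    have h2 : q ^ d ≠ 0 := pow_ne_zero _ hq
    have h3 : zeta q d m = (q ^ (m + 1)) ^ 2 / (q ^ d * q ^ 2) := by
      rw [zeta, pow_succ q m]; field_simp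
    rw [h3]

theorem A_down (D : Data e a b c q X Y Z A B) (hq : q ≠ 0) (n : ℕ) (hn : n ≤ d) :
    phi' a b c q d n • A (sv e n) = phi' a b c q d n •
      ((a * (q ^ d * q ^ 2 / (q ^ n) ^ 2) + a⁻¹ * ((q ^ n) ^ 2 / (q ^ d * q ^ 2))) • sv e n +
        sv e (n + 1)) := by
  rcases n with _ | m
  · rw [phi'_zero hq]; simp
  · rw [D.hA m (by omega)]
    have h1 : q ^ m ≠ 0 := pow_ne_zero _ hq
    have h2 : q ^ d ≠ 0 := pow_ne_zero _ hq
    have h3 : zeta q d m = (q ^ (m + 1)) ^ 2 / (q ^ d * q ^ 2) := by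
      rw [zeta, pow_succ q m]; field_simp
    have h4 : chi q d m = q ^ d * q ^ 2 / (q ^ (m + 1)) ^ 2 := by
      rw [chi, pow_succ q m]; field_simp
    rw [h3, h4]

theorem XY (D : Data e a b c q X Y Z A B) (n : ℕ) (hn : n ≤ d) :
    X (Y (sv e (n + 1))) = (0 : K) • sv e n + (zeta q d n * chi q d n) • sv e (n + 1) +
      (yy a b c q d (n + 1) * chi q d (n + 1)) • sv e (n + 2) := by
  rw [D.hY n hn, map_add, map_smul, map_smul, D.hX n hn, D.X_up n hn]
  module

theorem YX (D : Data e a b c q X Y Z A B) (n : ℕ) (hn : n ≤ d) :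
    Y (X (sv e (n + 1))) = (0 : K) • sv e n + (zeta q d n * chi q d n) • sv e (n + 1) +
      (yy a b c q d (n + 1) * chi q d n) • sv e (n + 2) := by
  rw [D.hX n hn, map_smul, D.hY n hn]
  module

theorem ZX (D : Data e a b c q X Y Z A B) (n : ℕ) (hn : n ≤ d) :
    Z (X (sv e (n + 1))) = (zz a b c q d n * chi q d n) • sv e n +
      (zeta q d n * chi q d n) • sv e (n + 1) + (0 : K) • sv e (n + 2) := by
  rw [D.hX n hn, map_smul, D.hZ n hn]
  module

theorem XZ (D : Data e a b c q X Y Z A B) (hq : q ≠ 0) (n : ℕ) (hn : n ≤ d) :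
    X (Z (sv e (n + 1))) = (zz a b c q d n * (q ^ d * q ^ 2 / (q ^ n) ^ 2)) • sv e n +
      (zeta q d n * chi q d n) • sv e (n + 1) + (0 : K) • sv e (n + 2) := by
  rw [D.hZ n hn, map_add, map_smul, map_smul, D.hX n hn, D.X_down hq n hn]
  module

theorem YZ (D : Data e a b c q X Y Z A B) (hq : q ≠ 0) (n : ℕ) (hn : n ≤ d) :
    Y (Z (sv e (n + 1))) = (zz a b c q d n * ((q ^ n) ^ 2 / (q ^ d * q ^ 2))) • sv e n +
      (yy a b c q d n * zz a b c q d n + zeta q d n * zeta q d n) • sv e (n + 1) +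
      (zeta q d n * yy a b c q d (n + 1)) • sv e (n + 2) := by
  rw [D.hZ n hn, map_add, map_smul, map_smul, D.Y_down hq n hn, D.hY n hn]
  module

theorem ZY (D : Data e a b c q X Y Z A B) (hq : q ≠ 0) (n : ℕ) (hn : n ≤ d) :
    Z (Y (sv e (n + 1))) = (zeta q d n * zz a b c q d n) • sv e n +
      (yy a b c q d (n + 1) * zz a b c q d (n + 1) + zeta q d n * zeta q d n) • sv e (n + 1) +
      (zeta q d (n + 1) * yy a b c q d (n + 1)) • sv e (n + 2) := by
  rw [D.hY n hn, map_add, map_smul, map_smul, D.Z_up hq n hn, D.hZ n hn]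
  module

theorem AB (D : Data e a b c q X Y Z A B) (hq : q ≠ 0) (n : ℕ) (hn : n ≤ d) :
    A (B (sv e (n + 1))) =
      (phi' a b c q d n * (a * (q ^ d * q ^ 2 / (q ^ n) ^ 2) +
        a⁻¹ * ((q ^ n) ^ 2 / (q ^ d * q ^ 2)))) • sv e n +
      (phi' a b c q d n + (b * zeta q d n + b⁻¹ * chi q d n) *
        (a * chi q d n + a⁻¹ * zeta q d n)) • sv e (n + 1) +
      (b * zeta q d n + b⁻¹ * chi q d n) • sv e (n + 2) := by
  rw [D.hB n hn, map_add, map_smul, map_smul, D.A_down hq n hn, D.hA n hn]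
  module

theorem BA (D : Data e a b c q X Y Z A B) (hq : q ≠ 0) (n : ℕ) (hn : n ≤ d) :
    B (A (sv e (n + 1))) =
      (phi' a b c q d n * (a * chi q d n + a⁻¹ * zeta q d n)) • sv e n +
      (phi' a b c q d (n + 1) + (b * zeta q d n + b⁻¹ * chi q d n) *
        (a * chi q d n + a⁻¹ * zeta q d n)) • sv e (n + 1) +
      (b * zeta q d (n + 1) + b⁻¹ * chi q d (n + 1)) • sv e (n + 2) := by
  rw [D.hA n hn, map_add, map_smul, D.B_up hq n hn, D.hB n hn]
  module

/-- extensionality on the shifted basis -/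
theorem ext_sv (e : Module.Basis (Fin (d + 1)) K V) {S T : Module.End K V}
    (h : ∀ n ≤ d, S (sv e (n + 1)) = T (sv e (n + 1))) : S = T := by
  apply e.ext
  intro i
  have := h i (by omega)
  rwa [sv_coe] at this

theorem rel_xy (D : Data e a b c q X Y Z A B) (hq : q ≠ 0) :
    q • (X * Y) - q⁻¹ • (Y * X) = (q - q⁻¹) • (1 : Module.End K V) := by
  apply ext_sv e
  intro n hn
  have h1 : q ^ n ≠ 0 := pow_ne_zero _ hq
  have h2 : q ^ d ≠ 0 := pow_ne_zero _ hq
  simp only [LinearMap.sub_apply, LinearMap.smul_apply, Module.End.mul_apply,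
    Module.End.one_apply]
  rw [D.XY n hn, D.YX n hn]
  have h3 : (q - q⁻¹) • sv e (n + 1) =
      (0 : K) • sv e n + (q - q⁻¹) • sv e (n + 1) + (0 : K) • sv e (n + 2) := by module
  rw [h3]
  have h4 : ∀ α β γ α' β' γ' : K, q • (α • sv e n + β • sv e (n + 1) + γ • sv e (n + 2)) -
      q⁻¹ • (α' • sv e n + β' • sv e (n + 1) + γ' • sv e (n + 2)) =
      (q * α - q⁻¹ * α') • sv e n + (q * β - q⁻¹ * β') • sv e (n + 1) +
        (q * γ - q⁻¹ * γ') • sv e (n + 2) := by intros; module
  rw [h4]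
  apply comb3 e n hn
  · intro _; ring
  · rw [zeta, chi]; field_simp
  · intro _
    rw [chi_succ, chi]; field_simp; ring

theorem rel_zx (D : Data e a b c q X Y Z A B) (hq : q ≠ 0) :
    q • (Z * X) - q⁻¹ • (X * Z) = (q - q⁻¹) • (1 : Module.End K V) := by
  apply ext_sv e
  intro n hn
  have h1 : q ^ n ≠ 0 := pow_ne_zero _ hq
  have h2 : q ^ d ≠ 0 := pow_ne_zero _ hq
  simp only [LinearMap.sub_apply, LinearMap.smul_apply, Module.End.mul_apply,
    Module.End.one_apply]
  rw [D.ZX n hn, D.XZ hq n hn]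
  have h3 : (q - q⁻¹) • sv e (n + 1) =
      (0 : K) • sv e n + (q - q⁻¹) • sv e (n + 1) + (0 : K) • sv e (n + 2) := by module
  rw [h3]
  have h4 : ∀ α β γ α' β' γ' : K, q • (α • sv e n + β • sv e (n + 1) + γ • sv e (n + 2)) -
      q⁻¹ • (α' • sv e n + β' • sv e (n + 1) + γ' • sv e (n + 2)) =
      (q * α - q⁻¹ * α') • sv e n + (q * β - q⁻¹ * β') • sv e (n + 1) +
        (q * γ - q⁻¹ * γ') • sv e (n + 2) := by intros; module
  rw [h4]
  apply comb3 e n hn
  · intro _; rw [chi]; field_simp; ring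
  · rw [zeta, chi]; field_simp
  · intro _; ring

theorem rel_yz (D : Data e a b c q X Y Z A B) (ha : a ≠ 0) (hb : b ≠ 0) (hc : c ≠ 0)
    (hq : q ≠ 0) (hphi : ∀ n, 1 ≤ n → n ≤ d → phi' a b c q d n ≠ 0) :
    q • (Y * Z) - q⁻¹ • (Z * Y) = (q - q⁻¹) • (1 : Module.End K V) := by
  apply ext_sv e
  intro n hn
  have h1 : q ^ n ≠ 0 := pow_ne_zero _ hq
  have h2 : q ^ d ≠ 0 := pow_ne_zero _ hq
  simp only [LinearMap.sub_apply, LinearMap.smul_apply, Module.End.mul_apply,
    Module.End.one_apply]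
  rw [D.YZ hq n hn, D.ZY hq n hn]
  have h3 : (q - q⁻¹) • sv e (n + 1) =
      (0 : K) • sv e n + (q - q⁻¹) • sv e (n + 1) + (0 : K) • sv e (n + 2) := by module
  rw [h3]
  have h4 : ∀ α β γ α' β' γ' : K, q • (α • sv e n + β • sv e (n + 1) + γ • sv e (n + 2)) -
      q⁻¹ • (α' • sv e n + β' • sv e (n + 1) + γ' • sv e (n + 2)) =
      (q * α - q⁻¹ * α') • sv e n + (q * β - q⁻¹ * β') • sv e (n + 1) +
        (q * γ - q⁻¹ * γ') • sv e (n + 2) := by intros; module
  rw [h4]
  apply comb3 e n hn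
  · intro _; rw [zeta]; field_simp; ring
  · rw [yz_prod ha hb hc hq d hphi n (by omega), yz_prod ha hb hc hq d hphi (n + 1) (by omega),
      zeta, pow_succ]
    field_simp
    ring
  · intro _; rw [zeta_succ, zeta]; field_simp; ring

theorem A_eq (D : Data e a b c q X Y Z A B) (ha : a ≠ 0) (hb : b ≠ 0) (hc : c ≠ 0)
    (hq : q ≠ 0) (hq2 : q - q⁻¹ ≠ 0) (hphi : ∀ n, 1 ≤ n → n ≤ d → phi' a b c q d n ≠ 0) :
    A = a • X + a⁻¹ • Y + (c / b / (q - q⁻¹)) • (X * Y - Y * X) := by
  apply ext_sv e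
  intro n hn
  have h1 : q ^ n ≠ 0 := pow_ne_zero _ hq
  have h2 : q ^ d ≠ 0 := pow_ne_zero _ hq
  simp only [LinearMap.sub_apply, LinearMap.smul_apply, Module.End.mul_apply,
    LinearMap.add_apply]
  rw [D.XY n hn, D.YX n hn, D.hX n hn, D.hY n hn, D.hA n hn]
  have h3 : (a * chi q d n + a⁻¹ * zeta q d n) • sv e (n + 1) + sv e (n + 2) =
      (0 : K) • sv e n + (a * chi q d n + a⁻¹ * zeta q d n) • sv e (n + 1) +
        (1 : K) • sv e (n + 2) := by module
  rw [h3]
  have h4 : ∀ χ ζ y α β γ α' β' γ' κ : K, a • χ • sv e (n + 1) +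
      a⁻¹ • (ζ • sv e (n + 1) + y • sv e (n + 2)) +
      κ • ((α • sv e n + β • sv e (n + 1) + γ • sv e (n + 2)) -
      (α' • sv e n + β' • sv e (n + 1) + γ' • sv e (n + 2))) =
      (κ * (α - α')) • sv e n + (a * χ + a⁻¹ * ζ + κ * (β - β')) • sv e (n + 1) +
        (a⁻¹ * y + κ * (γ - γ')) • sv e (n + 2) := by intros; module
  rw [h4]
  apply comb3 e n hn
  · intro _; ring
  · ring
  · intro hnd
    have h5 := yy_gg ha hb hc hq d hphi (n + 1) (by omega) (by omega)
    rw [← h5, gg, chi_succ, chi, pow_succ]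
    have h6 : q ^ 2 - 1 ≠ 0 := sq_sub_one_ne hq2
    generalize yy a b c q d (n + 1) = y
    field_simp
    ring

theorem B_eq (D : Data e a b c q X Y Z A B) (ha : a ≠ 0) (hb : b ≠ 0) (hc : c ≠ 0)
    (hq : q ≠ 0) (hq2 : q - q⁻¹ ≠ 0) (hphi : ∀ n, 1 ≤ n → n ≤ d → phi' a b c q d n ≠ 0) :
    B = b • Z + b⁻¹ • X + (a / c / (q - q⁻¹)) • (Z * X - X * Z) := by
  apply ext_sv e
  intro n hn
  have h1 : q ^ n ≠ 0 := pow_ne_zero _ hq
  have h2 : q ^ d ≠ 0 := pow_ne_zero _ hq
  simp only [LinearMap.sub_apply, LinearMap.smul_apply, Module.End.mul_apply,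
    LinearMap.add_apply]
  rw [D.ZX n hn, D.XZ hq n hn, D.hX n hn, D.hZ n hn, D.hB n hn]
  have h3 : phi' a b c q d n • sv e n + (b * zeta q d n + b⁻¹ * chi q d n) • sv e (n + 1) =
      phi' a b c q d n • sv e n + (b * zeta q d n + b⁻¹ * chi q d n) • sv e (n + 1) +
        (0 : K) • sv e (n + 2) := by module
  rw [h3]
  have h4 : ∀ χ ζ z α β γ α' β' γ' κ : K, b • (z • sv e n + ζ • sv e (n + 1)) +
      b⁻¹ • χ • sv e (n + 1) +
      κ • ((α • sv e n + β • sv e (n + 1) + γ • sv e (n + 2)) -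
      (α' • sv e n + β' • sv e (n + 1) + γ' • sv e (n + 2))) =
      (b * z + κ * (α - α')) • sv e n + (b * ζ + b⁻¹ * χ + κ * (β - β')) • sv e (n + 1) +
        (κ * (γ - γ')) • sv e (n + 2) := by intros; module
  rw [h4]
  apply comb3 e n hn
  · intro hn0
    rw [← zz_hh ha hb hc hq d hphi n (by omega) hn, hh, chi]
    have h6 : q ^ 2 - 1 ≠ 0 := sq_sub_one_ne hq2
    generalize zz a b c q d n = z
    field_simp
    ring
  · ring
  · intro hnd; ring

theorem E_eq (D : Data e a b c q X Y Z A B) (ha : a ≠ 0) (hb : b ≠ 0) (hc : c ≠ 0)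
    (hq : q ≠ 0) (hq2 : q - q⁻¹ ≠ 0) (hphi : ∀ n, 1 ≤ n → n ≤ d → phi' a b c q d n ≠ 0) :
    (q ^ 2 - (q ^ 2)⁻¹) • (c • Y + c⁻¹ • Z + (b / a / (q - q⁻¹)) • (Y * Z - Z * Y)) =
      q⁻¹ • (A * B) - q • (B * A) +
      ((q - q⁻¹) * ((a + a⁻¹) * (b + b⁻¹) +
        (c + c⁻¹) * (q ^ (d + 1) + (q ^ (d + 1))⁻¹))) • (1 : Module.End K V) := by
  apply ext_sv e
  intro n hn
  have h1 : q ^ n ≠ 0 := pow_ne_zero _ hq
  have h2 : q ^ d ≠ 0 := pow_ne_zero _ hq
  have h6 : q ^ 2 - 1 ≠ 0 := sq_sub_one_ne hq2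
  simp only [LinearMap.sub_apply, LinearMap.smul_apply, Module.End.mul_apply,
    LinearMap.add_apply, Module.End.one_apply]
  rw [D.YZ hq n hn, D.ZY hq n hn, D.AB hq n hn, D.BA hq n hn, D.hY n hn, D.hZ n hn]
  have h4 : ∀ ζ y z α β γ α' β' γ' κ μ : K,
      μ • (c • (ζ • sv e (n + 1) + y • sv e (n + 2)) + c⁻¹ • (z • sv e n + ζ • sv e (n + 1)) +
      κ • ((α • sv e n + β • sv e (n + 1) + γ • sv e (n + 2)) -
      (α' • sv e n + β' • sv e (n + 1) + γ' • sv e (n + 2)))) =
      (μ * (c⁻¹ * z + κ * (α - α'))) • sv e n +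
      (μ * (c * ζ + c⁻¹ * ζ + κ * (β - β'))) • sv e (n + 1) +
      (μ * (c * y + κ * (γ - γ'))) • sv e (n + 2) := by intros; module
  have h5 : ∀ α β γ α' β' γ' κ : K,
      q⁻¹ • (α • sv e n + β • sv e (n + 1) + γ • sv e (n + 2)) -
      q • (α' • sv e n + β' • sv e (n + 1) + γ' • sv e (n + 2)) + κ • sv e (n + 1) =
      (q⁻¹ * α - q * α') • sv e n + (q⁻¹ * β - q * β' + κ) • sv e (n + 1) +
      (q⁻¹ * γ - q * γ') • sv e (n + 2) := by intros; module
  rw [h4, h5]
  apply comb3 e n hn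
  · intro hn0
    rw [← zz_hh ha hb hc hq d hphi n (by omega) hn, hh, chi, zeta]
    generalize zz a b c q d n = z
    field_simp
    ring
  · rw [yz_prod ha hb hc hq d hphi n (by omega), yz_prod ha hb hc hq d hphi (n + 1) (by omega),
      phi'_eq ha hb hc hq, phi'_eq ha hb hc hq, gg, gg, hh, hh, chi, zeta, pow_succ q n,
      pow_succ q d]
    generalize q ^ n = Q at *
    generalize q ^ d = P at *
    field_simp
    ring
  · intro hnd
    have h7 := yy_gg ha hb hc hq d hphi (n + 1) (by omega) (by omega)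
    have h8 : q⁻¹ * (b * zeta q d n + b⁻¹ * chi q d n) -
        q * (b * zeta q d (n + 1) + b⁻¹ * chi q d (n + 1)) =
        (yy a b c q d (n + 1) * gg a b c q d (n + 1)) * (q⁻¹ * (b * zeta q d n + b⁻¹ * chi q d n) -
        q * (b * zeta q d (n + 1) + b⁻¹ * chi q d (n + 1))) := by rw [h7, one_mul]
    rw [h8, gg, chi_succ, chi, zeta_succ, zeta, pow_succ q n]
    generalize yy a b c q d (n + 1) = y
    field_simp
    ring

end Data

/-- the operator `X` -/
noncomputable def opX (e : Module.Basis (Fin (d + 1)) K V) (q : K) : Module.End K V :=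
  e.constr K (fun i => chi q d i • sv e ((i : ℕ) + 1))
/-- the inverse of `X` -/
noncomputable def opXinv (e : Module.Basis (Fin (d + 1)) K V) (q : K) : Module.End K V :=
  e.constr K (fun i => zeta q d i • sv e ((i : ℕ) + 1))
/-- the operator `Y` -/
noncomputable def opY (e : Module.Basis (Fin (d + 1)) K V) (a b c q : K) : Module.End K V :=
  e.constr K (fun i => zeta q d i • sv e ((i : ℕ) + 1) + yy a b c q d (i + 1) • sv e ((i : ℕ) + 2))
/-- the operator `Z` -/
noncomputable def opZ (e : Module.Basis (Fin (d + 1)) K V) (a b c q : K) : Module.End K V :=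
  e.constr K (fun i => zz a b c q d i • sv e (i : ℕ) + zeta q d i • sv e ((i : ℕ) + 1))

theorem constr_sv (e : Module.Basis (Fin (d + 1)) K V) (f : ℕ → V) (n : ℕ) (hn : n ≤ d) :
    (e.constr K (fun i : Fin (d + 1) => f i)) (sv e (n + 1)) = f n := by
  have h0 : sv e (n + 1) = e ⟨n, by omega⟩ := sv_coe e ⟨n, by omega⟩
  rw [h0, Module.Basis.constr_basis]

theorem opX_sv (e : Module.Basis (Fin (d + 1)) K V) (q : K) (n : ℕ) (hn : n ≤ d) :
    opX e q (sv e (n + 1)) = chi q d n • sv e (n + 1) :=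
  constr_sv e (fun i => chi q d i • sv e (i + 1)) n hn

theorem opXinv_sv (e : Module.Basis (Fin (d + 1)) K V) (q : K) (n : ℕ) (hn : n ≤ d) :
    opXinv e q (sv e (n + 1)) = zeta q d n • sv e (n + 1) :=
  constr_sv e (fun i => zeta q d i • sv e (i + 1)) n hn

theorem chi_zeta {q : K} (hq : q ≠ 0) (d n : ℕ) : chi q d n * zeta q d n = 1 := by
  have h1 : q ^ n ≠ 0 := pow_ne_zero _ hq
  have h2 : q ^ d ≠ 0 := pow_ne_zero _ hq
  rw [chi, zeta]; field_simp

theorem opX_inv (e : Module.Basis (Fin (d + 1)) K V) {q : K} (hq : q ≠ 0) :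
    opX e q * opXinv e q = 1 := by
  apply Data.ext_sv e
  intro n hn
  rw [Module.End.mul_apply, opXinv_sv e q n hn, map_smul, opX_sv e q n hn, smul_smul,
    mul_comm, chi_zeta hq, one_smul, Module.End.one_apply]

theorem opX_inv' (e : Module.Basis (Fin (d + 1)) K V) {q : K} (hq : q ≠ 0) :
    opXinv e q * opX e q = 1 := by
  apply Data.ext_sv e
  intro n hn
  rw [Module.End.mul_apply, opX_sv e q n hn, map_smul, opXinv_sv e q n hn, smul_smul,
    chi_zeta hq, one_smul, Module.End.one_apply]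

/-- If `A, B` is a Leonard pair with the second split form then all `ϕ_i` are nonzero. -/
theorem phi'_ne_zero (A B : Module.End K V) (hL : IsLeonardPair d A B)
    (e : Module.Basis (Fin (d + 1)) K V) (θ θs ϕ : ℕ → K)
    (hA : LinearMap.toMatrix e e A = lowerBi θ) (hB : LinearMap.toMatrix e e B = upperBi θs ϕ)
    (n : ℕ) (hn1 : 1 ≤ n) (hn : n ≤ d) : ϕ n ≠ 0 := by
  intro h0
  -- the span of the basis vectors with index at least `n`
  set W : Submodule K V := Submodule.span K (Set.range fun k : ℕ => sv e (n + 1 + k)) with hW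
  have hmem : ∀ k, sv e (n + 1 + k) ∈ W := fun k => Submodule.subset_span ⟨k, rfl⟩
  have hbig : ∀ m, d < m → sv e (m + 1) = 0 := by
    intro m hm
    rw [sv, dif_neg (by omega)]
  have hWA : ∀ w ∈ W, A w ∈ W := by
    intro w hw
    induction hw using Submodule.span_induction with
    | mem w hw =>
      obtain ⟨k, rfl⟩ := hw
      have h1 : n + 1 + k = (n + k) + 1 := by ring
      by_cases hk : n + k ≤ d
      · change A (sv e (n + 1 + k)) ∈ W
        rw [h1, apply_lower e A θ hA (n + k) hk]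
        refine W.add_mem (W.smul_mem _ ?_) ?_
        · rw [← h1]; exact hmem k
        · have h2 : n + k + 2 = n + 1 + (k + 1) := by ring
          rw [h2]; exact hmem (k + 1)
      · change A (sv e (n + 1 + k)) ∈ W
        rw [h1, hbig (n + k) (by omega), map_zero]
        exact W.zero_mem
    | zero => rw [map_zero]; exact W.zero_mem
    | add x y _ _ hx hy => rw [map_add]; exact W.add_mem hx hy
    | smul a x _ hx => rw [map_smul]; exact W.smul_mem _ hx
  have hWB : ∀ w ∈ W, B w ∈ W := by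
    intro w hw
    induction hw using Submodule.span_induction with
    | mem w hw =>
      obtain ⟨k, rfl⟩ := hw
      have h1 : n + 1 + k = (n + k) + 1 := by ring
      by_cases hk : n + k ≤ d
      · change B (sv e (n + 1 + k)) ∈ W
        rw [h1, apply_upper e B θs ϕ hB (n + k) hk]
        rcases k with _ | k
        · rw [add_zero, h0, zero_smul, zero_add]
          exact W.smul_mem _ (hmem 0)
        · refine W.add_mem (W.smul_mem _ ?_) (W.smul_mem _ ?_)
          · have h2 : n + (k + 1) = n + 1 + k := by ring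
            rw [h2]; exact hmem k
          · rw [← h1]; exact hmem (k + 1)
      · change B (sv e (n + 1 + k)) ∈ W
        rw [h1, hbig (n + k) (by omega), map_zero]
        exact W.zero_mem
    | zero => rw [map_zero]; exact W.zero_mem
    | add x y _ _ hx hy => rw [map_add]; exact W.add_mem hx hy
    | smul a x _ hx => rw [map_smul]; exact W.smul_mem _ hx
  rcases irred A B hL e θ hA W hWA hWB with h | h
  · have h1 : sv e (n + 1) ∈ W := hmem 0
    rw [h, Submodule.mem_bot] at h1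
    have h2 : sv e (n + 1) = e ⟨n, by omega⟩ := sv_coe e ⟨n, by omega⟩
    rw [h2] at h1
    exact e.ne_zero _ h1
  · -- the zeroth coordinate vanishes on `W`
    have h1 : ∀ w ∈ W, e.repr w (0 : Fin (d + 1)) = 0 := by
      intro w hw
      induction hw using Submodule.span_induction with
      | mem w hw =>
        obtain ⟨k, rfl⟩ := hw
        have h3 : n + 1 + k = (n + k) + 1 := by ring
        change e.repr (sv e (n + 1 + k)) (0 : Fin (d + 1)) = 0
        by_cases hk : n + k ≤ d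
        · have h2 : sv e (n + k + 1) = e ⟨n + k, by omega⟩ := sv_coe e ⟨n + k, by omega⟩
          rw [h3, h2, Module.Basis.repr_self, Finsupp.single_apply, if_neg]
          intro h4
          have := congrArg Fin.val h4
          simp at this
          omega
        · rw [h3, hbig (n + k) (by omega)]; simp
      | zero => simp
      | add x y _ _ hx hy => simp [hx, hy]
      | smul a x _ hx => simp [hx]
    have h2 := h1 (e 0) (by rw [h]; trivial)
    simp at h2

end Construct

/-! ### The main theorem -/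

/-- The assignment of operators to the generators. -/
noncomputable def genMap {K : Type u} {V : Type v} [Field K] [AddCommGroup V] [Module K V]
    (X Xinv Y Z : Module.End K V) : Gen → Module.End K V
  | Gen.X => X
  | Gen.Xinv => Xinv
  | Gen.Y => Y
  | Gen.Z => Z

/-- **Main theorem.** Every Leonard pair `A, B` with the `q`-Racah parameter array of the problem
carries an irreducible `U_q(sl_2)`-module structure with the three required identities. -/
theorem result {K : Type u} {V : Type v} [Field K] [AddCommGroup V] [Module K V] (d : ℕ)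
    (a b c q : K) (ha : a ≠ 0) (hb : b ≠ 0) (hc : c ≠ 0) (hq : q ≠ 0) (hq4 : q ^ 4 ≠ 1)
    (A B E : Module.End K V) (hL : IsLeonardPair d A B)
    (hP : HasParameterArray d A B (lam q d a) (lam q d b) (phi a b c q d) (phi' a b c q d))
    (hE : (q ^ 2 - (q ^ 2)⁻¹) • E = q⁻¹ • (A * B) - q • (B * A) +
      ((q - q⁻¹) * ((a + a⁻¹) * (b + b⁻¹) +
        (c + c⁻¹) * (q ^ (d + 1) + (q ^ (d + 1))⁻¹))) • (1 : Module.End K V)) :
    ∃ (_ : Module (Uq q) V) (_ : IsScalarTower K (Uq q) V), IsSimpleModule (Uq q) V ∧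
      (∀ v : V, A v = (a • gen q Gen.X + a⁻¹ • gen q Gen.Y + (c / b / (q - q⁻¹)) •
        (gen q Gen.X * gen q Gen.Y - gen q Gen.Y * gen q Gen.X)) • v) ∧
      (∀ v : V, B v = (b • gen q Gen.Z + b⁻¹ • gen q Gen.X + (a / c / (q - q⁻¹)) •
        (gen q Gen.Z * gen q Gen.X - gen q Gen.X * gen q Gen.Z)) • v) ∧
      (∀ v : V, E v = (c • gen q Gen.Y + c⁻¹ • gen q Gen.Z + (b / a / (q - q⁻¹)) •
        (gen q Gen.Y * gen q Gen.Z - gen q Gen.Z * gen q Gen.Y)) • v) := by
  obtain ⟨-, e, hAe, hBe⟩ := hP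
  have hq2 : q - q⁻¹ ≠ 0 := by
    intro h
    apply hq4
    have h1 : q = q⁻¹ := sub_eq_zero.mp h
    have h2 : q * q = 1 := by
      nth_rewrite 2 [h1]
      exact mul_inv_cancel₀ hq
    linear_combination (q ^ 2 + 1) * h2
  have hq22 : q ^ 2 - (q ^ 2)⁻¹ ≠ 0 := by
    intro h
    apply hq4
    have h1 : q ^ 2 = (q ^ 2)⁻¹ := sub_eq_zero.mp h
    have h2 : q ^ 2 * q ^ 2 = 1 := by
      nth_rewrite 2 [h1]
      exact mul_inv_cancel₀ (pow_ne_zero _ hq)
    linear_combination h2
  have hphi : ∀ n, 1 ≤ n → n ≤ d → phi' a b c q d n ≠ 0 :=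
    fun n hn1 hn => phi'_ne_zero A B hL e _ _ _ hAe hBe n hn1 hn
  have D : Data e a b c q (opX e q) (opY e a b c q) (opZ e a b c q) A B := by
    refine ⟨fun n hn => opX_sv e q n hn, ?_, ?_, ?_, ?_⟩
    · intro n hn
      exact constr_sv e (fun i => zeta q d i • sv e (i + 1) +
        yy a b c q d (i + 1) • sv e (i + 2)) n hn
    · intro n hn
      exact constr_sv e (fun i => zz a b c q d i • sv e i + zeta q d i • sv e (i + 1)) n hn
    · intro n hn
      rw [apply_lower e A _ hAe n hn, lam_rev hq d a n hn]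
    · intro n hn
      rw [apply_upper e B _ _ hBe n hn, lam_eq hq]
  set X := opX e q
  set Y := opY e a b c q
  set Z := opZ e a b c q
  let f : FreeAlgebra K Gen →ₐ[K] Module.End K V :=
    FreeAlgebra.lift K (genMap X (opXinv e q) Y Z)
  have hf : ∀ g, f (FreeAlgebra.ι K g) = genMap X (opXinv e q) Y Z g := by
    intro g
    exact FreeAlgebra.lift_ι_apply _ _
  have hrel : ∀ ⦃x y : FreeAlgebra K Gen⦄, Rel q x y → f x = f y := by
    intro x y hxy
    cases hxy with
    | x_xinv => rw [map_mul, hf, hf, map_one]; exact opX_inv e hq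
    | xinv_x => rw [map_mul, hf, hf, map_one]; exact opX_inv' e hq
    | xy =>
      rw [map_sub, map_smul, map_smul, map_mul, map_mul, hf, hf, map_smul, map_one]
      exact D.rel_xy hq
    | yz =>
      rw [map_sub, map_smul, map_smul, map_mul, map_mul, hf, hf, map_smul, map_one]
      exact D.rel_yz ha hb hc hq hphi
    | zx =>
      rw [map_sub, map_smul, map_smul, map_mul, map_mul, hf, hf, map_smul, map_one]
      exact D.rel_zx hq
  let ρ : Uq q →ₐ[K] Module.End K V := RingQuot.liftAlgHom K ⟨f, hrel⟩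
  have hρ : ∀ g, ρ (gen q g) = genMap X (opXinv e q) Y Z g := by
    intro g
    rw [gen, RingQuot.liftAlgHom_mkAlgHom_apply]
    exact hf g
  let inst : Module (Uq q) V := Module.compHom V ρ.toRingHom
  have hact : ∀ (x : Uq q) (v : V), x • v = ρ x v := fun _ _ => rfl
  have htower : IsScalarTower K (Uq q) V := by
    constructor
    intro k x v
    rw [hact, hact, map_smul]
    rfl
  have hAv : ∀ v : V, A v = (a • gen q Gen.X + a⁻¹ • gen q Gen.Y + (c / b / (q - q⁻¹)) •
        (gen q Gen.X * gen q Gen.Y - gen q Gen.Y * gen q Gen.X)) • v := by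
    intro v
    rw [hact]
    simp only [map_add, map_smul, map_sub, map_mul, hρ, genMap]
    rw [← D.A_eq ha hb hc hq hq2 hphi]
  have hBv : ∀ v : V, B v = (b • gen q Gen.Z + b⁻¹ • gen q Gen.X + (a / c / (q - q⁻¹)) •
        (gen q Gen.Z * gen q Gen.X - gen q Gen.X * gen q Gen.Z)) • v := by
    intro v
    rw [hact]
    simp only [map_add, map_smul, map_sub, map_mul, hρ, genMap]
    rw [← D.B_eq ha hb hc hq hq2 hphi]
  have hEv : ∀ v : V, E v = (c • gen q Gen.Y + c⁻¹ • gen q Gen.Z + (b / a / (q - q⁻¹)) •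
        (gen q Gen.Y * gen q Gen.Z - gen q Gen.Z * gen q Gen.Y)) • v := by
    intro v
    rw [hact]
    simp only [map_add, map_smul, map_sub, map_mul, hρ, genMap]
    have h1 := D.E_eq ha hb hc hq hq2 hphi
    rw [← hE] at h1
    have h2 := smul_right_injective _ hq22 h1
    rw [← h2]
  refine ⟨inst, htower, ?_, hAv, hBv, hEv⟩
  have hnt : Nontrivial V := ⟨⟨e ⟨0, by omega⟩, 0, e.ne_zero _⟩⟩
  refine { toIsSimpleOrder := ?_ }
  refine { exists_pair_ne := ⟨⊥, ⊤, ?_⟩, eq_bot_or_eq_top := ?_ }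
  · intro h
    have h1 : e ⟨0, by omega⟩ ∈ (⊥ : Submodule (Uq q) V) := by rw [h]; trivial
    rw [Submodule.mem_bot] at h1
    exact e.ne_zero _ h1
  · intro W
    let W' : Submodule K V :=
      { carrier := W
        add_mem' := fun hx hy => W.add_mem hx hy
        zero_mem' := W.zero_mem
        smul_mem' := by
          intro k w hw
          have h1 : k • w = (k • (1 : Uq q)) • w := by rw [smul_assoc, one_smul]
          rw [h1]
          exact W.smul_mem _ hw }
    have hmem : ∀ w, w ∈ W' ↔ w ∈ W := fun _ => Iff.rfl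
    rcases irred A B hL e _ hAe W' (fun w hw => by rw [hAv]; exact W.smul_mem _ hw)
      (fun w hw => by rw [hBv]; exact W.smul_mem _ hw) with h | h
    · left
      ext w
      rw [← hmem, h]
      simp
    · right
      ext w
      rw [← hmem, h]
      simp


end Pool.Agent.Results.MP_dc3d2a_al.EquitableAction
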